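import Pool.Agent.MP_a0c75d_an.H78.Old
import Pool.Agent.MP_a0c75d_an.H78.Ser
import Pool.Agent.MP_a0c75d_an.H78.Ext

open Filter Topology

namespace Pool.Agent.Results.MP_a0c75d_an.Series

/-- The equilibrium. -/
noncomputable def equil (α A B : ℝ) : ℝ :=
  (1 - A + Real.sqrt ((1 - A) ^ 2 + 4 * α * (1 + B))) / (2 * (1 + B))

/-- The smaller point `m` of the two-cycle. -/
noncomputable def cycLow (α A B : ℝ) : ℝ :=
  (1 - A - Real.sqrt ((1 - A) ^ 2 - 4 * α / (B - 1))) / 2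

/-- The larger point `M` of the two-cycle. -/
noncomputable def cycHigh (α A B : ℝ) : ℝ :=
  (1 - A + Real.sqrt ((1 - A) ^ 2 - 4 * α / (B - 1))) / 2

/-- The denominator of the recurrence at the equilibrium. -/
noncomputable def den (α A B : ℝ) : ℝ := A + (B + 1) * equil α A B

/-- The stable multiplier of the equilibrium. -/
noncomputable def mult (α A B : ℝ) : ℝ :=
  (-(B * equil α A B) + Real.sqrt ((B * equil α A B) ^ 2 + 4 * den α A B * (1 - equil α A B))) /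
    (2 * den α A B)

theorem result (α A B : ℝ) (hα : 0 < α) (hB : 1 < B) (hA0 : 0 ≤ A) (hA1 : A < 1)
    (hH : α < (B - 1) * (1 - A) ^ 2 / 4) :
    ∃ (c : ℕ → ℝ) (H φ : ℝ → ℝ) (t₀ R : ℝ),
      0 < mult α A B ∧ mult α A B < 1 ∧ t₀ < 0 ∧ 0 < R ∧
      c 0 = equil α A B ∧ c 1 = 1 ∧
      (∀ k, 2 ≤ k → c k =
        (∑ j ∈ Finset.Ioo 0 k, (B * mult α A B ^ j + 1) * c j *
          (mult α A B ^ (2 * (k - j)) * c (k - j))) /
        (1 - equil α A B - B * equil α A B * mult α A B ^ k -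
          den α A B * mult α A B ^ (2 * k))) ∧
      (∀ k, 0 < c k) ∧
      (∀ t, |t| < R → HasSum (fun k => c k * t ^ k) (H t)) ∧
      (∀ t, R ≤ t → ¬Summable fun k => c k * t ^ k) ∧
      H (mult α A B ^ 2 * R) = 1 ∧
      (∀ t ∈ Set.Ico t₀ R, H (mult α A B ^ 2 * t) < 1 ∧
        H t = (H (mult α A B ^ 2 * t) * (A + B * H (mult α A B * t)) - α) /
          (1 - H (mult α A B ^ 2 * t))) ∧
      AnalyticOnNhd ℝ H (Set.Ico t₀ R) ∧ StrictMonoOn H (Set.Ico t₀ R) ∧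
      H '' Set.Ico t₀ R = Set.Ici 0 ∧
      (∀ t ∈ Set.Ico t₀ R, φ (H t) = H (mult α A B * t)) ∧
      ContinuousOn φ (Set.Ici 0) ∧ StrictMonoOn φ (Set.Ici 0) ∧
      φ (equil α A B) = equil α A B ∧
      (∀ u, 0 ≤ u → 0 < φ u ∧ φ (φ u) = (α + u) / (A + B * φ u + u)) ∧
      (∀ ψ : ℝ → ℝ, MonotoneOn ψ (Set.Ici 0) →
        (∀ u, 0 ≤ u → 0 < ψ u ∧ ψ (ψ u) = (α + u) / (A + B * ψ u + u)) →
        Set.EqOn ψ φ (Set.Ici 0)) ∧
      ∀ x : ℤ → ℝ, 0 ≤ x (-1) → 0 ≤ x 0 → (A = 0 → (x (-1), x 0) ≠ (0, 0)) →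
        (∀ n : ℕ, x (n + 1) = (α + x (n - 1)) / (A + B * x n + x (n - 1))) →
        (Tendsto (fun n : ℕ => x n) atTop (𝓝 (equil α A B)) ↔ x 0 = φ (x (-1))) ∧
        (Tendsto (fun n : ℕ => (x (2 * n), x (2 * n + 1))) atTop
          (𝓝 (cycLow α A B, cycHigh α A B)) ↔ x 0 < φ (x (-1))) ∧
        (Tendsto (fun n : ℕ => (x (2 * n), x (2 * n + 1))) atTop
          (𝓝 (cycHigh α A B, cycLow α A B)) ↔ φ (x (-1)) < x 0) := by
  obtain ⟨P, rfl, rfl, rfl, e1, e2, e3⟩ :=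
    Pool.Agent.MP_a0c75d_an.H31.exists_par hα hB hA0 hA1 hH
  obtain ⟨φ, h1, h2, h3, h4, h5, h6⟩ := P.graph_full
  have f1 : equil P.α P.A P.B = P.e := e1.symm
  have f2 : cycLow P.α P.A P.B = P.m := e2.symm
  have f3 : cycHigh P.α P.A P.B = P.M := e3.symm
  have f4 : den P.α P.A P.B = P.A + (P.B + 1) * P.e := by rw [den, f1]
  obtain ⟨l0, l1, l2⟩ := Pool.Agent.MP_a0c75d_an.H78.root P (mult P.α P.A P.B)
    (by rw [mult, f4, f1])
  obtain ⟨c, h, R, ⟨c0, c1, c2⟩, c3, hR, s1, s2, s3, hg⟩ :=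
    Pool.Agent.MP_a0c75d_an.H78.ser P _ l0 l1 l2
  obtain ⟨H, t₀, t1, t2, t3, t4, t5, t6, t7⟩ := Pool.Agent.MP_a0c75d_an.H78.ext P _ R h φ l0 l1 hR
    hg h1 h2 h4 fun y hy => (h6 y hy).1
  rw [f1, f2, f3, f4]
  refine ⟨c, H, φ, t₀, R, l0, l1, t1, hR, c0, c1, c2, c3, fun t ht => ?_, s2, ?_, t3, t4, t5, t6,
    t7, h1, h2, h3, h4, h5, Pool.Agent.MP_a0c75d_an.H78.tri_int P φ h6⟩
  · rw [t2 t ht]
    exact s1 t ht
  · rw [t2 _ ?_, s3]
    rw [abs_of_pos (by positivity)]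
    nlinarith [mul_pos l0 hR, mul_lt_mul_of_pos_right l1 hR, mul_lt_mul_of_pos_left l1 l0]

end Pool.Agent.Results.MP_a0c75d_an.Series
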